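import Pool.Agent.TeamU.Genus
import Pool.Agent.Y755.FK.Stm

set_option autoImplicit false

open NumberField Module

namespace Pool.Agent.Y486.FK

open Pool.Agent.TeamU.Genus

section basic

variable {k : Type} [Field k] [NumberField k]

theorem not_rat {n : ℕ} (hn : n ≠ 0) {s : k} (hs : s ^ 2 = -(n : k)) (q : ℚ) :
    s ≠ algebraMap ℚ k q := by
  rintro rfl
  have h1 : q ^ 2 = -(n : ℚ) := by
    apply (algebraMap ℚ k).injective
    rw [map_pow, hs, map_neg, map_natCast]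
  have h2 : 0 < (n : ℚ) := by exact_mod_cast Nat.pos_of_ne_zero hn
  nlinarith [sq_nonneg q]

theorem exists_sigma' (h2 : finrank ℚ k = 2) {n : ℕ} (hn : n ≠ 0) {s : k}
    (hs : s ^ 2 = -(n : k)) :
    ∃ σ : k ≃ₐ[ℚ] k, σ s = -s ∧ (∀ x, σ (σ x) = x) ∧
      ∀ x : k, σ x = x → ∃ q : ℚ, x = algebraMap ℚ k q := by
  have : Algebra.IsQuadraticExtension ℚ k := ⟨h2⟩
  have : IsGalois ℚ k := inferInstance
  have hcard : Nat.card (k ≃ₐ[ℚ] k) = 2 := by
    rw [IsGalois.card_aut_eq_finrank, h2]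
  have hsnot : ¬ ∃ q : ℚ, s = algebraMap ℚ k q := by
    rintro ⟨q, hq⟩
    exact not_rat hn hs q hq
  have hex : ∃ σ : k ≃ₐ[ℚ] k, σ s ≠ s := by
    by_contra hcon
    push Not at hcon
    apply hsnot
    have := (IsGalois.mem_bot_iff_fixed (F := ℚ) (E := k) s).mpr hcon
    rw [IntermediateField.mem_bot] at this
    obtain ⟨q, hq⟩ := this
    exact ⟨q, hq.symm⟩
  obtain ⟨σ, hσ⟩ := hex
  have hσ1 : σ ≠ 1 := by
    rintro rfl
    exact hσ rfl
  have hss : σ s = -s := by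
    have h4 : (σ s) ^ 2 = s ^ 2 := by
      rw [← map_pow, hs, map_neg, map_natCast]
    rcases sq_eq_sq_iff_eq_or_eq_neg.mp h4 with h | h
    · exact absurd h hσ
    · exact h
  have hall : ∀ g : k ≃ₐ[ℚ] k, g = 1 ∨ g = σ := by
    intro g
    by_contra hcon
    push Not at hcon
    obtain ⟨hg1, hg2⟩ := hcon
    have : Fintype (k ≃ₐ[ℚ] k) := Fintype.ofFinite _
    classical
    have h5 : ({1, σ, g} : Finset (k ≃ₐ[ℚ] k)).card ≤ Fintype.card (k ≃ₐ[ℚ] k) :=
      Finset.card_le_univ _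
    rw [← Nat.card_eq_fintype_card, hcard] at h5
    rw [Finset.card_insert_of_notMem, Finset.card_insert_of_notMem, Finset.card_singleton] at h5
    · omega
    · simpa using Ne.symm hg2
    · simp [Ne.symm hg1, Ne.symm hσ1]
  refine ⟨σ, hss, ?_, ?_⟩
  · intro x
    have h6 : σ * σ = 1 := by
      rcases hall (σ * σ) with h | h
      · exact h
      · exact absurd (mul_left_cancel (a := σ) (by rw [h, mul_one])) hσ1
    have := congrArg (fun g : k ≃ₐ[ℚ] k => g x) h6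
    simpa using this
  · intro x hx
    have : ∀ g : k ≃ₐ[ℚ] k, g x = x := by
      intro g
      rcases hall g with h | h
      · rw [h]; rfl
      · rw [h]; exact hx
    have := (IsGalois.mem_bot_iff_fixed (F := ℚ) (E := k) x).mpr this
    rw [IntermediateField.mem_bot] at this
    obtain ⟨q, hq⟩ := this
    exact ⟨q, hq.symm⟩

omit [NumberField k] in
/-- the square root is an integer -/
theorem exists_sI {n : ℕ} {s : k} (hs : s ^ 2 = -(n : k)) :
    ∃ S : 𝓞 k, (S : k) = s ∧ S * S = -(n : 𝓞 k) := by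
  have hint : IsIntegral ℤ s := by
    apply IsIntegral.of_pow (n := 2) (by norm_num)
    rw [hs]
    exact (isIntegral_algebraMap (R := ℤ) (x := -(n : ℤ))).map (AlgHom.id ℤ k) |> fun h => by
      simpa using h
  obtain ⟨S, hS⟩ : ∃ S : 𝓞 k, (S : k) = s := ⟨⟨s, hint⟩, rfl⟩
  refine ⟨S, hS, ?_⟩
  apply RingOfIntegers.ext
  have : ((S * S : 𝓞 k) : k) = (S : k) * (S : k) := rfl
  rw [this, hS, ← sq, hs]
  simp

/-- `(1 + s) / 2` is an integer for `n = 3 mod 4` -/
theorem exists_om {n : ℕ} (hn4 : n % 4 = 3) {s : k} (hs : s ^ 2 = -(n : k)) :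
    ∃ ω : 𝓞 k, (ω : k) = (1 + s) / 2 := by
  obtain ⟨c, hc⟩ : ∃ c : ℕ, n + 1 = 4 * c := ⟨(n + 1) / 4, by omega⟩
  have hint : IsIntegral ℤ ((1 + s) / 2) := by
    refine ⟨Polynomial.X ^ 2 - Polynomial.X + Polynomial.C (c : ℤ), ?_, ?_⟩
    · have : (Polynomial.X ^ 2 - Polynomial.X + Polynomial.C (c : ℤ) : Polynomial ℤ) =
        Polynomial.X ^ 2 + (-Polynomial.X + Polynomial.C (c : ℤ)) := by ring
      rw [this]
      apply Polynomial.monic_X_pow_add
      refine lt_of_le_of_lt (Polynomial.degree_add_le _ _) ?_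
      rw [max_lt_iff]
      constructor
      · rw [Polynomial.degree_neg, Polynomial.degree_X]; norm_num
      · exact lt_of_le_of_lt Polynomial.degree_C_le (by norm_num)
    · simp only [Polynomial.eval₂_add, Polynomial.eval₂_sub, Polynomial.eval₂_pow,
        Polynomial.eval₂_X, Polynomial.eval₂_C]
      have h0 : (n : k) + 1 = 4 * (c : k) := by exact_mod_cast congrArg (fun z : ℕ => (z : k)) hc
      have h1 : s ^ 2 = 1 - 4 * (c : k) := by rw [hs, ← h0]; ring
      have h2 : (algebraMap ℤ k) (c : ℤ) = (c : k) := by simp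
      rw [h2]
      field_simp
      linear_combination h1
  exact ⟨⟨_, hint⟩, rfl⟩

end basic

section ram

variable {k : Type} [Field k] [NumberField k] {σ : k ≃ₐ[ℚ] k}

theorem tau_sub_mem (hσ2 : ∀ x, σ (σ x) = x) {P : Ideal (𝓞 k)} (hP : P.IsPrime) {p : ℕ}
    (hp : p.Prime) (hpP : (p : 𝓞 k) ∈ P) (hc : cj σ P = P) (hN : Ideal.absNorm P = p) :
    ∀ x : 𝓞 k, tau σ x - x ∈ P := by
  have hp0 : (p : 𝓞 k) ≠ 0 := by exact_mod_cast hp.ne_zero
  have hP0 : P ≠ ⊥ := by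
    rintro rfl
    exact hp0 (by simpa using hpP)
  have hfact : Fact p.Prime := ⟨hp⟩
  have hfin : Finite (𝓞 k ⧸ P) := Ideal.finiteQuotientOfFreeOfNeBot P hP0
  have hnt : Nontrivial (𝓞 k ⧸ P) := Ideal.Quotient.nontrivial_iff.mpr hP.ne_top
  have hchar : CharP (𝓞 k ⧸ P) p := by
    refine ⟨fun x => ?_⟩
    have h1 : ((x : ℕ) : 𝓞 k ⧸ P) = Ideal.Quotient.mk P ((x : ℤ) : 𝓞 k) := by simp
    rw [h1, Ideal.Quotient.eq_zero_iff_mem, int_mem_iff hP hp hpP]
    exact Int.natCast_dvd_natCast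
  have hcard : Nat.card (𝓞 k ⧸ P) = p := by
    rw [← hN]; rfl
  have hbij : Function.Bijective (ZMod.castHom (dvd_refl p) (𝓞 k ⧸ P)) := by
    apply Function.Injective.bijective_of_nat_card_le
    · exact (ZMod.castHom (dvd_refl p) (𝓞 k ⧸ P)).injective
    · rw [hcard, Nat.card_zmod]
  have hall : ∀ x : 𝓞 k, ∃ z : ℤ, x - (z : 𝓞 k) ∈ P := by
    intro x
    obtain ⟨a, ha⟩ := hbij.2 (Ideal.Quotient.mk P x)
    refine ⟨(a.val : ℤ), ?_⟩
    rw [← Ideal.Quotient.eq_zero_iff_mem, map_sub, ← ha]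
    have h2 : ((a.val : ℕ) : ZMod p) = a := by simp
    have h3 : ZMod.castHom (dvd_refl p) (𝓞 k ⧸ P) a = ((a.val : ℕ) : 𝓞 k ⧸ P) := by
      conv_lhs => rw [← h2]
      rw [map_natCast]
    have h4 : Ideal.Quotient.mk P (((a.val : ℕ) : ℤ) : 𝓞 k) = ((a.val : ℕ) : 𝓞 k ⧸ P) := by
      rw [map_intCast, Int.cast_natCast]
    rw [h3, h4, sub_self]
  intro x
  obtain ⟨z, hz⟩ := hall x
  have h1 : tau σ x - (z : 𝓞 k) ∈ P := by
    have h2 : x - (z : 𝓞 k) ∈ cj σ P := by rw [hc]; exact hz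
    rw [mem_cj hσ2, map_sub, tau_int] at h2
    exact h2
  have h3 := P.sub_mem h1 hz
  have h4 : tau σ x - (z : 𝓞 k) - (x - (z : 𝓞 k)) = tau σ x - x := by ring
  rwa [h4] at h3

theorem ram_dvd' {n : ℕ} (hn : Squarefree n) {s : k} (hs : s ^ 2 = -(n : k)) (hσs : σ s = -s)
    (hσ2 : ∀ x, σ (σ x) = x) {P : Ideal (𝓞 k)} (hP : P.IsPrime) {p : ℕ} (hp : p.Prime)
    (hpP : (p : 𝓞 k) ∈ P) (hc : cj σ P = P) (hN : Ideal.absNorm P = p) :
    p ∣ Pool.Agent.Y755.FK.Rn n := by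
  have htau := tau_sub_mem hσ2 hP hp hpP hc hN
  obtain ⟨S, hS, hSS⟩ := exists_sI hs
  have hn4 : n % 4 ≠ 0 := by
    intro h
    have h1 : 2 * 2 ∣ n := by omega
    have := hn 2 h1
    rw [Nat.isUnit_iff] at this
    omega
  -- `p` divides `4 n`
  have h4n : (p : ℤ) ∣ 4 * n := by
    rw [← int_mem_iff hP hp hpP]
    have h1 := htau S
    have h2 : tau σ S - S = -(2 * S) := by
      apply RingOfIntegers.ext
      have : ((tau σ S - S : 𝓞 k) : k) = σ (S : k) - (S : k) := by simp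
      rw [this, hS, hσs]
      have : ((-(2 * S) : 𝓞 k) : k) = -(2 * (S : k)) := rfl
      rw [this, hS]
      ring
    rw [h2] at h1
    have h3 : ((4 * (n : ℤ) : ℤ) : 𝓞 k) = -(2 * S) * (2 * S) := by
      push_cast
      linear_combination (4 : 𝓞 k) * hSS
    rw [h3]
    exact P.mul_mem_right _ h1
  have h4n' : p ∣ 4 * n := by exact_mod_cast h4n
  have h2n : p ∣ 2 * n := by
    have h5 : p ∣ 2 * (2 * n) := by
      have : 2 * (2 * n) = 4 * n := by ring
      rwa [this]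
    rcases (Nat.Prime.dvd_mul hp).mp h5 with h | h
    · exact Dvd.dvd.mul_right h n
    · exact h
  unfold Pool.Agent.Y755.FK.Rn
  split_ifs with h1
  · exact h2n
  · rcases (Nat.Prime.dvd_mul hp).mp h2n with h | h
    · have hp2 : p = 2 := (Nat.prime_dvd_prime_iff_eq hp Nat.prime_two).mp h
      by_cases h3 : n % 4 = 3
      · obtain ⟨ω, hω⟩ := exists_om h3 hs
        have h5 : (tau σ ω - ω) * (tau σ ω - ω) = ((-(n : ℤ) : ℤ) : 𝓞 k) := by
          apply RingOfIntegers.ext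
          have h6 : ((tau σ ω - ω : 𝓞 k) : k) = -s := by
            have : ((tau σ ω - ω : 𝓞 k) : k) = σ (ω : k) - (ω : k) := by simp
            rw [this, hω]
            rw [map_div₀, map_add, map_one, hσs]
            have : σ (2 : k) = 2 := map_ofNat σ 2
            rw [this]
            field_simp
            ring
          have h7 : (((tau σ ω - ω) * (tau σ ω - ω) : 𝓞 k) : k) = (-s) * (-s) := by
            have : (((tau σ ω - ω) * (tau σ ω - ω) : 𝓞 k) : k) =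
              ((tau σ ω - ω : 𝓞 k) : k) * ((tau σ ω - ω : 𝓞 k) : k) := rfl
            rw [this, h6]
          rw [h7]
          have h8 : (-s) * (-s) = s ^ 2 := by ring
          rw [h8, hs]
          simp
        have h9 : ((-(n : ℤ) : ℤ) : 𝓞 k) ∈ P := by
          rw [← h5]
          exact P.mul_mem_left _ (htau ω)
        rw [int_mem_iff hP hp hpP, dvd_neg] at h9
        exact_mod_cast h9
      · rw [hp2]
        omega
    · exact h

end ram

section classes

variable {k : Type} [Field k] [NumberField k] {σ : k ≃ₐ[ℚ] k}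

theorem Rn_ne {n : ℕ} (hn : Squarefree n) : Pool.Agent.Y755.FK.Rn n ≠ 0 := by
  have := hn.ne_zero
  unfold Pool.Agent.Y755.FK.Rn
  split_ifs <;> omega

theorem inv_mem (h2 : finrank ℚ k = 2) {n : ℕ} (hn : Squarefree n) {s : k}
    (hs : s ^ 2 = -(n : k)) (hσs : σ s = -s) (hσ2 : ∀ x, σ (σ x) = x)
    (hσ : ∀ x : k, σ x = x → ∃ q : ℚ, x = algebraMap ℚ k q) :
    ∀ (N : ℕ) (I : Ideal (𝓞 k)), I ≠ ⊥ → Ideal.absNorm I = N → cj σ I = I →
      ∃ b : ℕ, b ∣ Pool.Agent.Y755.FK.Rn n ∧ ∃ J : Ideal (𝓞 k), J ≠ ⊥ ∧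
        J * J = Ideal.span {(b : 𝓞 k)} ∧ cl J = cl I := by
  intro N
  induction N using Nat.strong_induction_on with
  | _ N ih =>
    intro I hI hN hcI
    by_cases hIt : I = ⊤
    · refine ⟨1, one_dvd _, ⊤, ?_, ?_, ?_⟩
      · exact top_ne_bot
      · simp
      · rw [hIt]
    · obtain ⟨P, hPm, hIP⟩ := Ideal.exists_le_maximal I hIt
      have hP := hPm.isPrime
      have hP0 : P ≠ ⊥ := by
        rintro rfl
        exact hI (le_bot_iff.mp hIP)
      obtain ⟨p, hp, hpP⟩ := exists_prime_nat hP hP0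
      have hp0 : (p : 𝓞 k) ≠ 0 := by exact_mod_cast hp.ne_zero
      have hnormp : Ideal.absNorm (Ideal.span {(p : 𝓞 k)}) = p ^ 2 := by
        rw [Ideal.absNorm_span_natCast, RingOfIntegers.rank, h2]
      have hspan0 : Ideal.span {(p : 𝓞 k)} ≠ ⊥ := by
        rwa [Ne, Ideal.span_singleton_eq_bot]
      have hcspan : cj σ (Ideal.span {(p : 𝓞 k)}) = Ideal.span {(p : 𝓞 k)} := by
        rw [cj_span, tau_nat]
      have hred : ∀ J : Ideal (𝓞 k), I = Ideal.span {(p : 𝓞 k)} * J →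
          ∃ b : ℕ, b ∣ Pool.Agent.Y755.FK.Rn n ∧ ∃ J : Ideal (𝓞 k), J ≠ ⊥ ∧
            J * J = Ideal.span {(b : 𝓞 k)} ∧ cl J = cl I := by
        intro J hJ
        have hJ0 : J ≠ ⊥ := by
          rintro rfl
          rw [Ideal.mul_bot] at hJ
          exact hI hJ
        have hcJ : cj σ J = J := by
          have h1 : Ideal.span {(p : 𝓞 k)} * cj σ J = Ideal.span {(p : 𝓞 k)} * J := by
            conv_rhs => rw [← hJ, ← hcI, hJ]
            rw [cj_mul, hcspan]
          exact mul_left_cancel₀ hspan0 h1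
        have hJn : Ideal.absNorm J < N := by
          rw [← hN, hJ, map_mul, hnormp]
          have h3 : Ideal.absNorm J ≠ 0 := by rwa [Ne, Ideal.absNorm_eq_zero_iff]
          have h4 : 1 < p := hp.one_lt
          have h5 : 1 < p ^ 2 := by nlinarith
          exact lt_mul_of_one_lt_left (Nat.pos_of_ne_zero h3) h5
        obtain ⟨b, hb, J', hJ', hJJ', hcl⟩ := ih _ hJn J hJ0 rfl hcJ
        refine ⟨b, hb, J', hJ', hJJ', ?_⟩
        rw [hcl, hJ, cl_mul hspan0 hJ0, cl_span hp0, one_mul]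
      rcases key h2 hσ2 hσ hP hp hpP with ⟨hne, hk⟩ | ⟨hc, hk⟩ | ⟨hc, hk, hNP⟩
      · have hcP := cj_prime (σ := σ) hP
        have hcP0 : cj σ P ≠ ⊥ := cj_ne_bot hσ2 hP0
        have hcop : IsCoprime P (cj σ P) := by
          rw [Ideal.isCoprime_iff_sup_eq]
          exact Ideal.IsMaximal.coprime_of_ne hPm (hcP.isMaximal hcP0) (Ne.symm hne)
        have hle : I ≤ cj σ P := by
          rw [← hcI]; exact cj_mono hIP
        obtain ⟨J, hJ⟩ := hcop.mul_dvd (Ideal.dvd_iff_le.mpr hIP) (Ideal.dvd_iff_le.mpr hle)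
        exact hred J (by rw [hJ, hk])
      · obtain ⟨J, hJ⟩ := Ideal.dvd_iff_le.mpr hIP
        exact hred J (by rw [hJ, ← hk])
      · obtain ⟨J, hJ⟩ := Ideal.dvd_iff_le.mpr hIP
        have hJ0 : J ≠ ⊥ := by
          rintro rfl
          rw [Ideal.mul_bot] at hJ
          exact hI hJ
        have hcJ : cj σ J = J := by
          have h1 : P * cj σ J = P * J := by
            conv_rhs => rw [← hJ, ← hcI, hJ]
            rw [cj_mul, hc]
          exact mul_left_cancel₀ hP0 h1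
        have hJn : Ideal.absNorm J < N := by
          rw [← hN, hJ, map_mul, hNP]
          have h3 : Ideal.absNorm J ≠ 0 := by rwa [Ne, Ideal.absNorm_eq_zero_iff]
          exact lt_mul_of_one_lt_left (Nat.pos_of_ne_zero h3) hp.one_lt
        have hpn : p ∣ Pool.Agent.Y755.FK.Rn n := ram_dvd' hn hs hσs hσ2 hP hp hpP hc hNP
        obtain ⟨b, hb, J', hJ', hJJ', hcl⟩ := ih _ hJn J hJ0 rfl hcJ
        by_cases hpb : p ∣ b
        · obtain ⟨b1, rfl⟩ := hpb
          have hle : J' ≤ P := by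
            have h5 : J' * J' ≤ P := by
              rw [hJJ', Ideal.span_singleton_le_iff_mem]
              push_cast
              exact P.mul_mem_right _ hpP
            rcases (Ideal.IsPrime.mul_le hP).mp h5 with h | h <;> exact h
          obtain ⟨J'', hJ''⟩ := Ideal.dvd_iff_le.mpr hle
          have hJ''0 : J'' ≠ ⊥ := by
            rintro rfl
            rw [Ideal.mul_bot] at hJ''
            exact hJ' hJ''
          refine ⟨b1, (Dvd.intro_left p rfl).trans hb, J'', hJ''0, ?_, ?_⟩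
          · apply mul_left_cancel₀ hspan0
            rw [Ideal.span_singleton_mul_span_singleton, ← hk]
            have h6 : P * P * (J'' * J'') = J' * J' := by rw [hJ'']; ring
            rw [h6, hJJ']
            push_cast
            rfl
          · rw [hJ, cl_mul hP0 hJ0, ← hcl, hJ'', cl_mul hP0 hJ''0, ← mul_assoc, ← cl_mul hP0 hP0,
              hk, cl_span hp0, one_mul]
        · refine ⟨p * b, ?_, P * J', mul_ne_zero hP0 hJ', ?_, ?_⟩
          · exact Nat.Coprime.mul_dvd_of_dvd_of_dvd ((Nat.Prime.coprime_iff_not_dvd hp).mpr hpb)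
              hpn hb
          · have h6 : P * J' * (P * J') = (P * P) * (J' * J') := by ring
            rw [h6, hk, hJJ', Ideal.span_singleton_mul_span_singleton]
            push_cast
            rfl
          · rw [cl_mul hP0 hJ', hcl, hJ, cl_mul hP0 hJ0]

theorem no_neg {n : ℕ} (hn : n ≠ 0) {s : k} (hs : s ^ 2 = -(n : k)) (hσs : σ s = -s)
    (hσ2 : ∀ x, σ (σ x) = x)
    (hσ : ∀ x : k, σ x = x → ∃ q : ℚ, x = algebraMap ℚ k q) (b : 𝓞 k) (m : ℕ) (hm : m ≠ 0)
    (h : b * tau σ b = (((-1) * ((m : ℤ) * m) : ℤ) : 𝓞 k)) : False := by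
  have hs0 : s ≠ 0 := by
    rintro rfl
    have : (n : k) ≠ 0 := by exact_mod_cast hn
    apply this
    linear_combination hs
  obtain ⟨t, ht⟩ := hσ ((b : k) + σ (b : k)) (by rw [map_add, hσ2, add_comm])
  obtain ⟨u, hu⟩ := hσ (((b : k) - σ (b : k)) / s) (by
    rw [map_div₀, map_sub, hσ2, hσs]
    field_simp
    ring)
  have h1 : (b : k) * σ (b : k) = -((m : k) * m) := by
    have : ((b * tau σ b : 𝓞 k) : k) = (((((-1) * ((m : ℤ) * m) : ℤ) : 𝓞 k)) : k) :=
      congrArg (fun x : 𝓞 k => (x : k)) h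
    have h3 : ((b * tau σ b : 𝓞 k) : k) = (b : k) * σ (b : k) := rfl
    rw [h3] at this
    rw [this]
    simp
  have h4 : ((b : k) - σ (b : k)) = algebraMap ℚ k u * s := by
    rw [← hu]
    field_simp
  have h5 : algebraMap ℚ k (t ^ 2 + n * u ^ 2) = algebraMap ℚ k (-(4 * ((m : ℚ) * m))) := by
    rw [map_add, map_mul, map_pow, map_pow, ← ht, map_natCast, map_neg, map_mul, map_mul,
      map_natCast, map_ofNat]
    have h6 : (algebraMap ℚ k u) ^ 2 * s ^ 2 = ((b : k) - σ (b : k)) ^ 2 := by rw [h4]; ring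
    rw [hs] at h6
    linear_combination (-1 : k) * h6 + (4 : k) * h1
  have h6 := (algebraMap ℚ k).injective h5
  have h7 : 0 < (m : ℚ) := by exact_mod_cast Nat.pos_of_ne_zero hm
  have h8 : 0 ≤ (n : ℚ) := by positivity
  nlinarith [sq_nonneg t, mul_nonneg h8 (sq_nonneg u), mul_pos h7 h7]

theorem class_mem (h2 : finrank ℚ k = 2) {n : ℕ} (hn : Squarefree n) {s : k}
    (hs : s ^ 2 = -(n : k)) (hσs : σ s = -s) (hσ2 : ∀ x, σ (σ x) = x)
    (hσ : ∀ x : k, σ x = x → ∃ q : ℚ, x = algebraMap ℚ k q) {c : ClassGroup (𝓞 k)}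
    (hc : c ^ 2 = 1) :
    ∃ b : ℕ, b ∣ Pool.Agent.Y755.FK.Rn n ∧ ∃ J : Ideal (𝓞 k), J ≠ ⊥ ∧
      J * J = Ideal.span {(b : 𝓞 k)} ∧ cl J = c := by
  have hsgn : Sgn σ 1 c := by
    rcases sgn_of_sq h2 hσ2 hσ hc with h | h
    · exact h
    · exfalso
      obtain ⟨I, b, m, _, _, hm, _, _, hbb⟩ := h
      exact no_neg hn.ne_zero hs hσs hσ2 hσ b m hm hbb
  obtain ⟨I, b, m, hI, rfl, hm, hb, hI2, hbb⟩ := hsgn
  obtain ⟨S, hS, hSS⟩ := exists_sI hs
  have htS : tau σ S = -S := by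
    apply RingOfIntegers.ext
    rw [coe_tau, hS, hσs]
    have : ((-S : 𝓞 k) : k) = -(S : k) := rfl
    rw [this, hS]
  have hS0 : S ≠ 0 := by
    rintro rfl
    have h1 : (n : 𝓞 k) = 0 := by linear_combination hSS
    exact hn.ne_zero (by exact_mod_cast h1)
  have hδ : ∃ δ : 𝓞 k, δ ≠ 0 ∧ b * tau σ δ = m * δ := by
    by_cases hbn : b = -(m : 𝓞 k)
    · refine ⟨S, hS0, ?_⟩
      rw [htS, hbn]
      ring
    · refine ⟨m + b, ?_, ?_⟩
      · intro h0
        apply hbn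
        linear_combination h0
      · rw [map_add, tau_nat, mul_add, hbb]
        push_cast
        ring
  obtain ⟨δ, hδ0, hδ⟩ := hδ
  have htδ0 : tau σ δ ≠ 0 := by
    intro h0
    apply hδ0
    exact (tau σ).injective (by rw [h0, map_zero])
  have hs0 : Ideal.span {tau σ δ} ≠ ⊥ := by
    rwa [Ne, Ideal.span_singleton_eq_bot]
  have hJ0 : I * Ideal.span {tau σ δ} ≠ ⊥ := mul_ne_zero hI hs0
  have hinv : cj σ (I * Ideal.span {tau σ δ}) = I * Ideal.span {tau σ δ} := by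
    apply mul_left_cancel₀ hI
    rw [cj_mul, cj_span, tau_tau hσ2, ← mul_assoc, ← mul_assoc, hb, hI2,
      Ideal.span_singleton_mul_span_singleton, Ideal.span_singleton_mul_span_singleton, hδ]
  have := inv_mem h2 hn hs hσs hσ2 hσ _ _ hJ0 rfl hinv
  rwa [cl_mul hI hs0, cl_span htδ0, mul_one] at this

/-- ideals with square `(b)`, `b` a divisor of `n` -/
theorem ideal_dvd {n : ℕ} (hn : Squarefree n) {s : k} (hs : s ^ 2 = -(n : k)) {b : ℕ}
    (hb : b ∣ n) : ∃ I : Ideal (𝓞 k), I * I = Ideal.span {(b : 𝓞 k)} := by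
  obtain ⟨S, hS, hSS⟩ := exists_sI hs
  obtain ⟨c, rfl⟩ := hb
  have hcop : IsCoprime (b : ℤ) (c : ℤ) := by
    rw [Nat.isCoprime_iff_coprime]
    exact Nat.coprime_of_squarefree_mul hn
  obtain ⟨u, v, huv⟩ := hcop
  refine ⟨Ideal.span {(b : 𝓞 k), S}, ?_⟩
  rw [Ideal.span_pair_mul_span_pair]
  push_cast at hSS
  apply le_antisymm
  · rw [Ideal.span_le]
    intro x hx
    simp only [Set.mem_insert_iff, Set.mem_singleton_iff] at hx
    rw [SetLike.mem_coe, Ideal.mem_span_singleton]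
    rcases hx with rfl | rfl | rfl | rfl
    · exact Dvd.intro _ rfl
    · exact Dvd.intro _ rfl
    · exact Dvd.intro_left _ rfl
    · rw [hSS]
      exact ⟨-c, by ring⟩
  · rw [Ideal.span_singleton_le_iff_mem]
    have h1 : (b : 𝓞 k) * b ∈ Ideal.span {(b : 𝓞 k) * b, b * S, S * b, S * S} :=
      Ideal.subset_span (by simp)
    have h2 : S * S ∈ Ideal.span {(b : 𝓞 k) * b, b * S, S * b, S * S} :=
      Ideal.subset_span (by simp)
    have h3 : (b : 𝓞 k) = (u : 𝓞 k) * ((b : 𝓞 k) * b) + (-(v : 𝓞 k)) * (S * S) := by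
      have h4 : ((u : 𝓞 k)) * (b : 𝓞 k) + (v : 𝓞 k) * (c : 𝓞 k) = 1 := by
        exact_mod_cast congrArg (fun z : ℤ => (z : 𝓞 k)) huv
      rw [hSS]
      linear_combination (-(b : 𝓞 k)) * h4
    generalize Ideal.span {(b : 𝓞 k) * b, b * S, S * b, S * S} = J at h1 h2 ⊢
    rw [h3]
    exact Ideal.add_mem _ (Ideal.mul_mem_left _ _ h1) (Ideal.mul_mem_left _ _ h2)

/-- the ideal with square `(2)` for `n = 1 mod 4` -/
theorem ideal_two {n : ℕ} (hn4 : n % 4 = 1) {s : k} (hs : s ^ 2 = -(n : k)) :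
    ∃ I : Ideal (𝓞 k), I * I = Ideal.span {(2 : 𝓞 k)} := by
  obtain ⟨S, hS, hSS⟩ := exists_sI hs
  obtain ⟨c, hc⟩ : ∃ c : ℕ, n = 4 * c + 1 := ⟨n / 4, by omega⟩
  rw [hc] at hSS
  push_cast at hSS
  refine ⟨Ideal.span {(2 : 𝓞 k), 1 + S}, ?_⟩
  rw [Ideal.span_pair_mul_span_pair]
  apply le_antisymm
  · rw [Ideal.span_le]
    intro x hx
    simp only [Set.mem_insert_iff, Set.mem_singleton_iff] at hx
    rw [SetLike.mem_coe, Ideal.mem_span_singleton]
    rcases hx with rfl | rfl | rfl | rfl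
    · exact Dvd.intro _ rfl
    · exact Dvd.intro _ rfl
    · exact Dvd.intro_left _ rfl
    · exact ⟨S - 2 * c, by linear_combination hSS⟩
  · rw [Ideal.span_singleton_le_iff_mem]
    have h1 : (2 : 𝓞 k) * 2 ∈ Ideal.span {(2 : 𝓞 k) * 2, 2 * (1 + S), (1 + S) * 2,
        (1 + S) * (1 + S)} := Ideal.subset_span (by simp)
    have h2 : (2 : 𝓞 k) * (1 + S) ∈ Ideal.span {(2 : 𝓞 k) * 2, 2 * (1 + S), (1 + S) * 2,
        (1 + S) * (1 + S)} := Ideal.subset_span (by simp)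
    have h3 : (1 + S) * (1 + S) ∈ Ideal.span {(2 : 𝓞 k) * 2, 2 * (1 + S), (1 + S) * 2,
        (1 + S) * (1 + S)} := Ideal.subset_span (by simp)
    have h4 : (2 : 𝓞 k) = ((c : 𝓞 k) + 1) * (2 * 2) + (-1) * (2 * (1 + S)) +
        (1 + S) * (1 + S) := by
      linear_combination -hSS
    generalize Ideal.span {(2 : 𝓞 k) * 2, 2 * (1 + S), (1 + S) * 2, (1 + S) * (1 + S)} = J
      at h1 h2 h3 ⊢
    rw [h4]
    exact Ideal.add_mem _ (Ideal.add_mem _ (Ideal.mul_mem_left _ _ h1)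
      (Ideal.mul_mem_left _ _ h2)) h3

theorem ideal_Rn {n : ℕ} (hn : Squarefree n) {s : k} (hs : s ^ 2 = -(n : k)) {b : ℕ}
    (hb : b ∣ Pool.Agent.Y755.FK.Rn n) : ∃ I : Ideal (𝓞 k), I * I = Ideal.span {(b : 𝓞 k)} := by
  unfold Pool.Agent.Y755.FK.Rn at hb
  split_ifs at hb with h
  · rcases Nat.even_or_odd b with he | ho
    · obtain ⟨b', hb'⟩ := he
      have h1 : b = 2 * b' := by omega
      rw [h1] at hb
      have h2 : b' ∣ n := Nat.dvd_of_mul_dvd_mul_left (by norm_num) hb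
      obtain ⟨I, hI⟩ := ideal_dvd hn hs h2
      obtain ⟨J, hJ⟩ := ideal_two h hs
      refine ⟨J * I, ?_⟩
      have h3 : J * I * (J * I) = (J * J) * (I * I) := by ring
      rw [h3, hI, hJ, Ideal.span_singleton_mul_span_singleton, h1]
      push_cast
      rfl
    · have h1 : Nat.Coprime b 2 := Nat.Coprime.symm (Nat.coprime_two_left.mpr ho)
      exact ideal_dvd hn hs (h1.dvd_of_dvd_mul_left hb)
  · exact ideal_dvd hn hs hb

end classes

theorem t_AMB1 : Pool.Agent.Y755.FK.S_AMB1 := by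
  intro K _ _ h2 n hn ⟨s, hs⟩
  obtain ⟨σ, hσs, hσ2, hσ⟩ := exists_sigma' h2 hn.ne_zero hs
  refine ⟨?_, ?_⟩
  · intro b hb
    obtain ⟨I, hI⟩ := ideal_Rn hn hs hb
    have hb0 : b ≠ 0 := by
      rintro rfl
      exact Rn_ne hn (zero_dvd_iff.mp hb)
    have hbK : (b : 𝓞 K) ≠ 0 := by exact_mod_cast hb0
    have hI0 : I ≠ ⊥ := by
      rintro rfl
      rw [Ideal.mul_bot] at hI
      exact hbK (Ideal.span_singleton_eq_bot.mp hI.symm)
    exact ⟨⟨I, mem_nonZeroDivisors_of_ne_zero hI0⟩, by rw [sq]; exact hI⟩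
  · intro c hc
    obtain ⟨b, hb, J, hJ0, hJJ, hcl⟩ := class_mem h2 hn hs hσs hσ2 hσ hc
    refine ⟨b, hb, ⟨J, mem_nonZeroDivisors_of_ne_zero hJ0⟩, by rw [sq]; exact hJJ, ?_⟩
    rw [← hcl, cl_of_ne hJ0]

end Pool.Agent.Y486.FK
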